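import Mathlib
import Pool.Agent.Run7.h879.HA.Bridge
import Pool.Agent.TH170.FT.MT

/-!
# The Mumford-Tate conjecture for `H^2` of the varieties dominated by powers of an abelian variety
# with one Frobenius element: one half of all slope types of every CM field of degree `2 r ^ k`

Let `A` be an abelian variety over a number field (or a finitely generated subfield of the complex
numbers), of any dimension and with arbitrary endomorphisms, which has good reduction at some place
`v`, with a residue field of `p ^ a` elements. Suppose that the characteristic polynomial of the
Frobenius element at `v` is the product of the minimal polynomials of Weil numbers `π i` that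
generate CM fields `K i` of degree `2 g i` (`HasFrobenius`); so `dim A = ∑ i, g i`. Nothing is
assumed about the Galois groups of the fields `K i`; they are pairwise independent: for `i ≠ k` and
all complex embeddings `φ` of `K i` and `ψ` of `K k` some automorphism of `ℂ` is the identity on `φ
(K i)` and the complex conjugation on `ψ (K k)` (this is no condition if there is only one field).

We fix an isomorphism `ν` of the algebraic closure of `ℚ_p` with `ℂ`; it defines a `p`-adic
valuation of `ℂ`, with the value one at `p`. Let `M i` be a function with integral values on the
complex embeddings of `K i`, invariant under complex conjugation (the weights). A CM type `Φ i` of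
`K i` (a choice of one element out of each complex conjugate pair of embeddings; there are `2 ^ (g
i)` types), `M i` and a real number `κ ≠ 0` prescribe the slopes `(a + κ M) / 2` (at the embeddings
in `Φ i`) and `(a - κ M) / 2` (outside of `Φ i`) of a Weil number in `K i` (`IsOfType`). If `p`
splits completely in `K i` then, by Honda and Tate, all slopes with rational values between `0` and
`a` that are symmetric in this way occur for abelian varieties over finite fields. The case `M = 1`,
`κ = a` is the case of ordinary reduction. Slopes are rational, so integral weights `M` are no
restriction.

The property `Q` (`Holds`) of a family of types: for all abelian varieties `A` as above with Weil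
numbers `π i` of the slope types `Φ i`, and all prime numbers `ℓ`, **all Tate classes in the tensor
powers of `H^1(A)` are linear combinations of products of Hodge classes of degree two**
(`MumfordTateStrong`).

Let `X` be a smooth projective variety dominated by a power of `A`, for instance `A` itself or a
resolution of singularities of a quotient of `A ^ n` by a finite group. Then `H = H^2(X)(1)` is a
direct summand of `H^2(A ^ n)(1)` and of Tate classes, in the Hodge structure and in the `ℓ`-adic
cohomology, and the tensor powers of `H^2(A ^ n)(1)` are direct summands of the spaces `(H^1)^{⊗ 2
m}(m)`. With the theorem of Deligne (Hodge classes are Tate classes) it follows that `𝐆_{ℚ_ℓ}` and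
the generic fibre of `G_{k^conn, ℓ}` have the same invariants in all tensor powers of `H`. Both
groups are reductive and connected, so they are equal; the group schemes of the problem are the
closures of their generic fibres. So **Q1 holds for `X`, at all `ℓ`**.

In the formal statement (`IsRealization`) `W` is `H_1(A, ℚ)`, `T` the tangent space at the origin
and `per : W → T` the inclusion, `ω₀` is the form given by a polarization; `V` is the rational Tate
module with the comparison map `comp : W → V`, the action `ρ` of the Galois group and the Weil
pairing `ω`; `χ` is the cyclotomic character. The theorems of Faltings on endomorphisms and on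
semisimplicity are part of the data. That the absence of relations between the conjugates of the
Weil numbers of one Frobenius element implies this was formalized before in the starting files
(MP_c1bb77_ag OneFrobeniusTowers, MP_33b3f9_ag AllCMFields).

**The theorem.** Let `E` be **any CM field of degree `2 g = 2 r ^ k`**, `r` a prime number, of
degree at least `16` if `r = 2`. Nothing is assumed about the Galois group of the normal closure of
`E`, and nothing about the subfields of `E`.

* (`HalfOfAll`) For all weights `M` (odd if `r = 2`; if `r` is odd then `r` may divide some, but not
  all of them) the property `Q` is true for **at least one half of all `2 ^ g` types** of `E`.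
* (`MostWithWeightsOne`) For the weights `M = 1` (for instance in the ordinary case) it is true for
  at least `(1 - 1 / r) 2 ^ g` of the types.
* (`OneOfTwo`) There is a set `B` of embeddings of `E`, stable under complex conjugation, such that
  for **every** type `Φ` it is true for `Φ` or for the symmetric difference of `Φ` and `B`.
* (`SixteenPercent`) There is a number `g₀` such that for every CM field that is **abelian over
  `ℚ`**, of any degree `2 g ≥ 2 g₀`, and all odd weights it is true for at least 16 percent of all
  `2 ^ g` types; again nothing is assumed on the subfields.

All this is proved more generally for finitely many pairwise independent fields `K i`; the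
proportions are then multiplied. Bounds of other starting files for the number of the exceptional
types can say nothing for these fields if they have many CM subfields (for instance for the
multiquadratic ones, where one half is the best possible proportion for the types without
relations).

The proof: if the types have no relations then there are no multiplicative relations between the
conjugates of the Weil numbers `π i`, so that the Frobenius torus is as large as possible, and the
Tate classes are generated in degree two (`TH170/FT` of the starting files). The proportion of the
types without relations (`NoRelations`) is at least one half by the theorem of the starting files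
(`Q29/DP`, `Q29/EP`), which was used there for other conjectures.
-/

set_option autoImplicit false

namespace Pool.Agent.Results.MP_6369ef_ag.HalfOfAllTypes

open NumberField Module Pool.Agent.H204R3.CM Pool.Agent.H977R3.CM Pool.Agent.TH170
  Pool.Agent.Q29.EP Pool.Agent.Run7.h879.HA

open Pool.Agent.H204R3.GP

/-- The Mumford-Tate conjecture in the strong form for the abelian varieties with a Frobenius element
whose characteristic polynomial is the product of the minimal polynomials of Weil numbers `π i` for
`p ^ a` with the slope types `Φ i`, `M i`, for the prime number `ℓ`. -/
def HoldsAt {p : ℕ} [Fact p.Prime] (ν : PadicAlgCl p ≃+* ℂ) {I : Type} [Fintype I]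
    (K : I → Type) [∀ i, Field (K i)] [∀ i, NumberField (K i)] [∀ i, IsCMField (K i)]
    (M : ∀ i, (K i →+* ℂ) → ℤ) (Φ : ∀ i, Set (K i →+* ℂ)) (a : ℕ) (π : ∀ i, K i)
    (ℓ : ℕ) [Fact ℓ.Prime] : Prop :=
  ∀ (W T V Γ : Type) [AddCommGroup W] [Module ℚ W] [AddCommGroup T] [Module ℂ T]
    [AddCommGroup V] [Module ℚ_[ℓ] V] [FiniteDimensional ℚ_[ℓ] V] [Group Γ]
    (per : W →+ T) (ω₀ : W →ₗ[ℚ] W →ₗ[ℚ] ℚ) (comp : W →+ V) (ρ : Representation ℚ_[ℓ] Γ V)
    (χ : Γ →* ℚ_[ℓ]) (ω : V →ₗ[ℚ_[ℓ]] V →ₗ[ℚ_[ℓ]] ℚ_[ℓ]),
    FT.IsOfType ν a K M Φ π → FT.IsRealization per ω₀ comp ρ χ ω →
      FT.HasFrobenius ρ χ p a π → MumfordTateStrong per comp ρ χ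

/-- The same for all Weil numbers with the slope types `Φ i`, `M i` and all prime numbers `ℓ`. -/
def Holds {p : ℕ} [Fact p.Prime] (ν : PadicAlgCl p ≃+* ℂ) {I : Type} [Fintype I]
    (K : I → Type) [∀ i, Field (K i)] [∀ i, NumberField (K i)] [∀ i, IsCMField (K i)]
    (M : ∀ i, (K i →+* ℂ) → ℤ) (Φ : ∀ i, Set (K i →+* ℂ)) : Prop :=
  ∀ (a : ℕ) (π : ∀ i, K i) (ℓ : ℕ) [Fact ℓ.Prime], 0 < a → HoldsAt ν K M Φ a π ℓ

/-- The property `Holds` of the families of slope types. -/
def Q : TypeProperty := fun _ _ ν _ _ K _ _ _ M Φ => Holds ν K M Φ

/-- **The Mumford-Tate conjecture for `H^2` of the varieties dominated by powers of an abelian variety with a Frobenius element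
with one half of all slope types of every CM field of degree `2 r ^ k`.** -/
theorem result : HalfOfAll Q ∧ MostWithWeightsOne Q ∧ OneOfTwo Q ∧ SixteenPercent Q :=
  four (of_notMem fun _ _ _ _ _ _ _ _ _ _ _ hind hM hΦ hnd =>
    fun _ _ _ _ ha _ _ _ _ _ _ _ _ _ _ _ _
      _ _ _ _ _ _ hπ hR hF => FT.mumfordTate_of_types hind hM hΦ hnd ha hπ hR hF)

end Pool.Agent.Results.MP_6369ef_ag.HalfOfAllTypes
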