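import Mathlib
import Pool.Agent.Run7.h301.TW.Frob
import Pool.Agent.Run7.h301.TW.Examples

/-!
# The Mumford-Tate conjecture for the second cohomology of the varieties dominated by powers of an
abelian variety with a Frobenius element with Weil numbers in a forest of CM fields

Let `A` be an abelian variety over a number field (or a finitely generated subfield of the complex
numbers), of any dimension and with arbitrary endomorphisms, which has good reduction at ONE place
`v`, with a residue field of `p ^ a` elements, such that the characteristic polynomial of the
Frobenius element at `v` is the product of the minimal polynomials of Weil numbers `π i` as follows
(`HasFrobenius`).

Let `F v`, `v : V`, be finitely many CM fields with inclusions `F u → F v` for `u ≤ v`, where `V`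
is a finite partially ordered set in which the elements below any element form a chain. So `V` is a
forest, and the fields below a given field form a tower: for instance a tower
`F 0 ⊂ F 1 ⊂ ... ⊂ F n`, several towers, or several towers with a common lower part. Let
`π i ∈ F (w i)`, `i ∈ I`, be finitely many Weil numbers for `q = p ^ a`, possibly several in the
same field, at any level. We assume:

* The automorphisms of `ℂ` act on the complex embeddings of the fields as freely as the inclusions
  permit (`FreeForest`). Two embeddings `x` of `F v` and `y` of `F w` agree on `F u` if `u ≤ v`,
  `u ≤ w` and they have the same restriction to `F u` (`Agree`). If `x` and `y` agree on no field
  of the forest, and `x` and `conj y` neither, then some automorphism of `ℂ` fixes `x` and maps `y`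
  to `conj y`. If `x` agrees with `y` and with `y'` on the same fields, at least one, then some
  automorphism fixes `x` and maps `y` to `y'`.
* The norms are independent (`IndependentNorms`): for each `i₀` the slope deviations of the norms
  of all the `π i` to all the fields `F u` contained in `F (w i)` and in `F (w i₀)` are linearly
  independent over `ℚ`, as functions of the embeddings of `F (w i₀)` in the algebraic closure of
  `ℚ_p` (`normDev`; for `F u = F (w i)` it is the slope deviation `2 ord_p (τ (π i)) - a` of `π i`,
  whose values are `a (2 λ - 1)` for the slopes `λ`). Nothing else is assumed on the Newton
  polygons.

If `x` and `y` agree on a CM field `F u` then no automorphism fixes `x` and maps `y` to `conj y`: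
the pair `(x, y)` is rigid. The starting results and the result `SeveralWeilNumbers` (helper142,
MP_b8862a_ag) of this run on one Frobenius element treat the case without rigid pairs, the forests
without inclusions, and the result `VanishingSums` (helper479) of this run fields with a group of
automorphisms of `ℂ` that acts on half of the embeddings through a transitive commutative group,
one number for each field. Every CM field that contains a smaller CM field has rigid pairs, for
instance the fields `k R` with `k` imaginary quadratic and `R` totally real, and in this case there
are abelian varieties with exotic classes (the Weil classes). In the theorem the norms to the
smaller fields decide: for `k R` with the Galois group of `R` doubly transitive the condition on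
one Weil number `π` is that its slopes are not constant on the embeddings over an embedding of `k`
and that their mean value is not `a / 2`; for ordinary abelian varieties this says that the
signature `(r, s)` over `k` satisfies `r s ≠ 0` and `r ≠ s`.

**Then, for all prime numbers `ℓ`, all Tate classes in the tensor powers of `H^1(A)` are linear
combinations of products of Hodge classes of degree two** (`MumfordTateStrong`, `MumfordTateFor`).

Let `X` be a smooth projective variety (over a finitely generated field) which is dominated by a
power of `A`, or such that the motive `H^2(X)(1)` is a direct summand of a sum of Tate twists of
tensor powers of `h^1(A)`: for instance a quotient or a resolution of a quotient of `A ^ r`, a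
product of curves whose Jacobians are isogenous to products of factors of `A`, or a symmetric
product, a Hilbert scheme or a surface dominated by such products. With the theorem of Deligne
(Hodge classes on abelian varieties are Tate classes) the connected `ℓ`-adic monodromy group of
`H^2(X)(1)` and the Mumford-Tate group (over `ℚ_ℓ`) have the same invariants in all tensor
constructions, and both are reductive (Faltings). So they are equal, for all `ℓ`; as both sides of
the equality in Q1 are flat over `ℤ_ℓ`, they are the Zariski closures of their generic fibres, and
**the equality in Q1 holds for `X` and all `ℓ`**.

In the formal statement (`IsRealization`) `W` is `H_1(A, ℚ)`, `T` the tangent space at the origin
and `per : W → T` the inclusion, `ω₀` is the form given by a polarization; `V` is the rational Tate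
module with the comparison map `comp : W → V`, the action `ρ` of the Galois group and the Weil
pairing `ω`; `χ` is the cyclotomic character. The theorems of Faltings on endomorphisms and on
semisimplicity are part of the data.

In the second part (`FrobeniusForMostForestTypes`) the Weil numbers have prescribed slope types. We
fix an isomorphism `ν` of the algebraic closure of `ℚ_p` with `ℂ`. A CM type `Φ` of a CM field `E`,
a function `M` with nonzero integral values on the complex embeddings of `E` and a real number
`c ≠ 0` prescribe the slopes `(a + c M) / 2` (at the embeddings in `Φ`) and `(a - c M) / 2`
(outside of `Φ`) of a Weil number for `p ^ a` in `E` (`HasType`; the case `M = 1`, `c = a` is the
case of ordinary abelian varieties, `M ≠ 0` says that `a / 2` is not a slope). For given `w 0`,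
..., `w (r - 1)` and given weights `M i` on `F (w i)` **the proportion of the families of CM types
`Φ i` of the fields `F (w i)` for which the conclusion of the first part is false for some Weil
numbers with these slope types is at most** `exceptional F w`, the sum over all `i` and all the
fields `F u ⊆ F (w i)` of `b (t) ^ (d - j)`, where `b (t)` is the largest probability
`binomial (t, t / 2) / 2 ^ t` of a value of a sum of `t` independent signs, `t = [F (w i) : F u]`,
`2 d` is the difference of the degrees of `F u` and of the largest field of the forest below `F u`
(or the degree of `F u`, if there is none), and `j` is the number of the `i' < i` with
`F u ⊆ F (w i')`. So almost all families are good if the steps of the towers are large, or (for the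
lowest step) if `t` is large and there is one Weil number above it: for one ordinary Weil number in
`k R` of degree `2 g` the bound is `binomial (g, g / 2) / 2 ^ g + 2 ^ (1 - g)`.

The third part (`ForestExamples`) gives examples of free forests with rigid pairs: the CM fields
`E` with an imaginary quadratic subfield for which the automorphisms of `ℂ` act doubly transitively
on the embeddings of the maximal real subfield `K`. Families of CM fields without rigid pairs are
free forests without inclusions (`freeForest_of_noRigidPairs` in the file TW.Examples).

The condition on the norms is the best possible (`exactInForests` in the file TW.Exact, not used
here): if the inclusions are proper then for Weil numbers that are algebraic integers the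
independence of the norms is equivalent to the maximality of the angle rank, that is, all
multiplicative relations between the conjugates of the `π i` and `p` are trivial. If the norms are
dependent then there are exotic classes on some product of the abelian varieties.

The proof. A multiplicative relation gives a function `c` on the pairs `(i, y)`, `y` an embedding
of `F (w i)`, with `c (i, conj y) = - c (i, y)` and `∑ c (i, y) D i (σ y) = 0` for all
automorphisms `σ`, where `D i` is the slope deviation of `π i`. If `c (i₀, x) ≠ 0` then we take the
mean value of the translates of `c` under the automorphisms (of a finite Galois group) that fix
`x`. It is not zero at `(i₀, x)`. It is zero at `(i, y)` if `x` agrees neither with `y` nor with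
`conj y` on any field, and otherwise it depends only on the fields on which `x` and `y` (or
`conj y`) agree. These fields are the fields below some field, so the mean value is a linear
combination of the characteristic functions of the sets of the `y` that agree with `x` on `F u`,
made odd, and the relation becomes a linear relation between the slope deviations of the norms to
the fields `F u`. So the angle rank is maximal (`MaximalAngleRank`). That the Tate classes are then
products of Tate classes of degree two, which come from divisors by the theorem of Faltings, is in
the starting files (H204R3, Y137, TH170). For the second part: if the norms are dependent then for
some `u` and `i` the norm to `F u` of the signed weight function of `Φ i` is in the sum of the span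
of the norms of those with smaller index and of the space of the odd functions that come from
smaller fields. A subspace of dimension `d` of the functions on `h` points contains a vector of
independent sums of `t` signs with nonzero weights at most with the probability `b (t) ^ (h - d)`,
by the Littlewood-Offord theorem of Erdős.
-/

set_option autoImplicit false

namespace Pool.Agent.Results.MP_6369ef_ag.WeilNumberForests

open Pool.Agent.Run7.h301.TW

/-- **All Tate classes in the tensor powers of `H_1(A)` are linear combinations of products of Hodge
classes of degree two, for abelian varieties with a Frobenius element whose Weil numbers lie in a free
forest of CM fields and have independent norms.** -/
theorem result :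
    FrobeniusInForests MumfordTateFor ∧ FrobeniusForMostForestTypes MumfordTateFor ∧
      ForestExamples :=
  ⟨frobeniusInForests fun _ _ _ _ _ _ _ _ _ _ ha hw h => mumfordTate_of_angle ha hw h,
    frobeniusForMost fun _ _ _ _ _ _ _ _ _ _ ha hw h => mumfordTate_of_angle ha hw h,
    forestExamples⟩

end Pool.Agent.Results.MP_6369ef_ag.WeilNumberForests
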